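import Pool.Agent.helper27.CHS.Spec

/-!
# Row EB: block bounds
-/

set_option autoImplicit false

open Finset Pool.Agent.SX

namespace Pool.Agent.CHS

lemma EB_exp {t : ℝ} (ht : 0 ≤ t) : Real.exp (-t) ≤ 1 - t + t ^ 2 / 2 := by
  have h1 : 1 + t + t ^ 2 / 2 ≤ Real.exp t := Real.quadratic_le_exp_of_nonneg ht
  have hpos : 0 < 1 + t + t ^ 2 / 2 := by positivity
  rw [Real.exp_neg]
  have h2 : (Real.exp t)⁻¹ ≤ (1 + t + t ^ 2 / 2)⁻¹ := by
    apply inv_anti₀ hpos h1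
  refine h2.trans ?_
  rw [inv_le_iff_one_le_mul₀ hpos]
  nlinarith [pow_nonneg ht 4]

lemma EB_one {x : ℝ} (h0 : 0 ≤ x) (h1 : x ≤ 2 / 7) :
    Real.exp (-(x + x ^ 2)) ≤ 1 - x := by
  have ht : 0 ≤ x + x ^ 2 := by positivity
  refine (EB_exp ht).trans ?_
  have h2 : (x + x ^ 2) ^ 2 / 2 ≤ x ^ 2 := by
    have h3 : (1 + x) ^ 2 ≤ 2 := by nlinarith
    have h4 : (x + x ^ 2) ^ 2 = x ^ 2 * (1 + x) ^ 2 := by ring
    rw [h4]
    nlinarith [sq_nonneg x]
  linarith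

theorem EB (hPA : PA_stmt) : EB_stmt := by
  intro s t lam hs40 hst hs
  obtain ⟨hmem, _, hpos, _⟩ := hPA
  obtain ⟨hV, _, hsig, hP⟩ := hpos s t (by linarith)
  have hN : (0 : ℝ) < 2 ^ 44 := by positivity
  have hbig : ∀ p ∈ PB s t, (1 / ((p : ℝ) - 1)) ≤ 2 / 2 ^ 44 := by
    intro p hp
    obtain ⟨hpr, hlo, _⟩ := (hmem s t p).1 hp
    have hp0 : (0 : ℝ) < p := by exact_mod_cast hpr.pos
    have h1 : Real.exp 40 ≤ p := by
      rw [← Real.exp_log hp0]
      exact Real.exp_le_exp.mpr (by linarith)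
    have h2 : (2 : ℝ) ^ 57 ≤ Real.exp 40 := by
      have hl : Real.log ((2 : ℝ) ^ 57) ≤ 40 := by
        rw [Real.log_pow]
        have := Real.log_two_lt_d9
        push_cast
        linarith
      calc (2 : ℝ) ^ 57 = Real.exp (Real.log ((2 : ℝ) ^ 57)) := by rw [Real.exp_log (by positivity)]
        _ ≤ Real.exp 40 := Real.exp_le_exp.mpr hl
    have h3 : (2 : ℝ) ^ 43 ≤ (p : ℝ) - 1 := by
      have : (2 : ℝ) ^ 43 + 1 ≤ 2 ^ 57 := by norm_num
      linarith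
    have h4 : (1 / ((p : ℝ) - 1)) ≤ 1 / 2 ^ 43 :=
      div_le_div_of_nonneg_left (by norm_num) (by positivity) h3
    have h5 : (1 : ℝ) / 2 ^ 43 = 2 / 2 ^ 44 := by norm_num
    linarith
  have hx : ∀ p ∈ PB s t, 0 ≤ (1 / ((p : ℝ) - 1)) ∧ (1 / ((p : ℝ) - 1)) ≤ 2 / 7 := by
    intro p hp
    obtain ⟨_, h1, h2⟩ := hP p hp
    exact ⟨h1.le, by linarith⟩
  have hek0 : ∀ p ∈ PB s t, 0 ≤ (fun p : ℕ => 1 / ((p : ℝ) - 1)) p := fun p hp => (hx p hp).1
  refine ⟨hV, ?_, ?_⟩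
  · intro k
    refine ⟨Pool.Agent.Lib.BrunHooley.es_nonneg _ _ hek0 k, ?_⟩
    refine (Pool.Agent.Lib.BrunHooley.es_le_pow_div _ _ hek0 k).trans ?_
    apply div_le_div_of_nonneg_right _ (by positivity)
    exact pow_le_pow_left₀ (sum_nonneg hek0) hs k
  · have hlow : Real.exp (-(lam * (1 + 2 / 2 ^ 44))) ≤ V (PB s t) := by
      have h1 : Real.exp (∑ p ∈ PB s t, (-((1 / ((p : ℝ) - 1)) + (1 / ((p : ℝ) - 1)) ^ 2))) ≤
          V (PB s t) := by
        rw [Real.exp_sum]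
        unfold V
        apply prod_le_prod
        · intro p _
          exact (Real.exp_pos _).le
        · intro p hp
          exact EB_one (hx p hp).1 (hx p hp).2
      refine le_trans (Real.exp_le_exp.mpr ?_) h1
      rw [sum_neg_distrib]
      apply neg_le_neg
      calc ∑ p ∈ PB s t, ((1 / ((p : ℝ) - 1)) + (1 / ((p : ℝ) - 1)) ^ 2)
          ≤ ∑ p ∈ PB s t, (1 / ((p : ℝ) - 1)) * (1 + 2 / 2 ^ 44) := by
            apply sum_le_sum
            intro p hp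
            have h3 := mul_le_mul_of_nonneg_left (hbig p hp) (hx p hp).1
            nlinarith
        _ = sig s t * (1 + 2 / 2 ^ 44) := by
            unfold sig
            rw [sum_mul]
        _ ≤ lam * (1 + 2 / 2 ^ 44) := by
            apply mul_le_mul_of_nonneg_right hs
            positivity
    rw [Real.exp_neg] at hlow
    rw [one_div]
    have h5 := inv_anti₀ (by positivity : 0 < (Real.exp (lam * (1 + 2 / 2 ^ 44)))⁻¹) hlow
    rwa [inv_inv] at h5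

end Pool.Agent.CHS
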